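import Pool.Agent.H29.FewLists.Base

/-!
# The list edge-colouring conjecture for a bounded number of distinct lists

For lists taken from `t` given sets, the conjecture follows for a graph and all `k` from the cases
`k ≤ D t` for the subgraphs, where `D t` depends on `t` only, and `D 4 = 3`.

Method: the colours are classified by the set of the lists they belong to. If all the lists have
`k` colours this is a `k`-regular multihypergraph on `t` points. It is a sum of indecomposable
regular ones, of degree at most `D t` (Dickson's lemma), and each summand of degree `d` is used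
for `d` colour classes of an edge colouring with `k` colours.
-/

namespace Pool.Agent.Results.MP_2f9829_co.BoundedListNumber

/-- The edges of `G` can be properly coloured from the lists `L`. -/
def ListColourable {V : Type} (G : SimpleGraph V) (L : G.edgeSet → Finset ℕ) : Prop :=
  ∃ f : G.edgeSet → ℕ, (∀ e, f e ∈ L e) ∧ ∀ e e', G.lineGraph.Adj e e' → f e ≠ f e'

/-- If `G` is `k`-edge-colourable, then for any `t` sets `A 0, ..., A (t - 1)` of at least `k`
colours, the edges can be properly coloured from all lists each of which contains one of the
sets `A i`. -/
def FewLists (t k : ℕ) {V : Type} (G : SimpleGraph V) : Prop :=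
  G.lineGraph.Colorable k →
    ∀ A : Fin t → Finset ℕ, (∀ i, k ≤ (A i).card) →
      ∀ L : G.edgeSet → Finset ℕ, (∀ e, ∃ i, A i ⊆ L e) → ListColourable G L

/-- (1) For every `t` there is `D` such that for every graph `G` and lists from `t` sets, the list
edge-colouring conjecture for all `k` follows from its cases `k ≤ D` for the spanning subgraphs
of `G`. (2) For `t = 4` the case `k = 3` for the spanning subgraphs suffices. -/
theorem result :
    (∀ t : ℕ, ∃ D : ℕ, ∀ (V : Type) [Fintype V] (G : SimpleGraph V),
      (∀ H ≤ G, ∀ k ≤ D, FewLists t k H) → ∀ k, FewLists t k G) ∧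
    (∀ (V : Type) [Fintype V] (G : SimpleGraph V),
      (∀ H ≤ G, FewLists 4 3 H) → ∀ k, FewLists 4 k G) := by
  classical
  refine ⟨fun t => ?_, fun V _ G h k => Pool.Agent.H29.FewLists.fewLists_four G h k⟩
  obtain ⟨D, hD⟩ := Pool.Agent.H29.FewLists.fewLists_bound t
  exact ⟨D, fun V _ G h k => hD V G h k⟩

end Pool.Agent.Results.MP_2f9829_co.BoundedListNumber
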