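import Pool.Agent.H29.FewLists.FullAssign

/-!
# The list edge-colouring conjecture if every colour belongs to at most two different lists

The list edge-colouring conjecture holds for all graphs and all `k`, if every colour belongs to at
most two different lists or to all lists. There is no condition on the number of the lists. (If
there are at most three different lists, this is always the case.)

Method: if the lists have `k` colours and no colour belongs to all of them, they are the vertices of
a `k`-regular multigraph whose edges are the colours (a colour which belongs to one list only is a
half-edge). For even `k` its double is the union of `k / 2` spanning subgraphs which are regular of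
degree two (Petersen). Each of them contains two colours of every list, and it is used for two
colour classes of an edge colouring of the graph: they form paths and even cycles, so they can be
coloured from lists with two colours. For odd `k` such a spanning subgraph exists unless there is an
odd set `D` of lists, not the set of all lists, with exactly one outgoing colour `b`; this follows
from Tutte's theorem. In this case the lists in `D` are replaced by one list (which contains `b` and
new colours), the graph is coloured by induction, and then the part with lists in `D` is coloured
again by induction, where `b` is only used for edges which had this colour. To this end one proves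
more generally that a colour which belongs to one list only need not be used outside of a given
colour class; if the spanning subgraph of degree two is chosen without this colour, one can delete
it and proceed with `k - 2` instead of `k`. The proof works for all `k`-colourable claw-free graphs
(line graphs of multigraphs are claw-free).
-/

namespace Pool.Agent.Results.MP_2f9829_co.ColoursInTwoLists

/-- The edges of `G` can be properly coloured from the lists `L`. -/
def ListColourable {V : Type} (G : SimpleGraph V) (L : G.edgeSet → Finset ℕ) : Prop :=
  ∃ f : G.edgeSet → ℕ, (∀ e, f e ∈ L e) ∧ ∀ e e', G.lineGraph.Adj e e' → f e ≠ f e'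

/-- No vertex has three pairwise nonadjacent neighbours. -/
def ClawFree {V : Type} (G : SimpleGraph V) : Prop :=
  ∀ v a b c : V, G.Adj v a → G.Adj v b → G.Adj v c → a ≠ b → a ≠ c → b ≠ c →
    G.Adj a b ∨ G.Adj a c ∨ G.Adj b c

/-- (1) The list edge-colouring conjecture holds for all graphs, all `k` and all assignments in
which every colour belongs to at most two different lists or to all lists.
(2) Let `G` be a `k`-colourable claw-free graph, let `C 1, ..., C r` be disjoint sets of colours,
`r ≤ k`, and let `A i` be sets of colours such that every `A i` has an element in every `C j` and at
least `k - r` elements outside the sets `C j`, and such that every colour outside the sets `C j`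
belongs to at most two of the sets `A i` or to all of them. Then `G` can be coloured from all lists
each of which contains a set `A i`. -/
theorem result :
    (∀ (V : Type) [Fintype V] (G : SimpleGraph V) (k : ℕ),
      G.lineGraph.Colorable k ↔
        ∀ L : G.edgeSet → Finset ℕ, (∀ e, k ≤ (L e).card) →
          (∀ c, {S | S ∈ Set.range L ∧ c ∈ S}.ncard ≤ 2 ∨ ∀ e, c ∈ L e) → ListColourable G L) ∧
    (∀ (V : Type) [Fintype V] (G : SimpleGraph V) (k r : ℕ), ClawFree G → G.Colorable k →
      r ≤ k → ∀ (ι : Type) [Fintype ι] (A : ι → Finset ℕ) (C : Fin r → Finset ℕ),
        (∀ i j, i ≠ j → Disjoint (C i) (C j)) → (∀ i j, (A i ∩ C j).Nonempty) →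
        (∀ i, k - r ≤ (A i \ Finset.univ.biUnion C).card) →
        (∀ c, (∀ j, c ∉ C j) → {i | c ∈ A i}.ncard ≤ 2 ∨ ∀ i, c ∈ A i) →
        ∀ L : V → Finset ℕ, (∀ v, ∃ i, A i ⊆ L v) →
          ∃ f : V → ℕ, (∀ v, f v ∈ L v) ∧ ∀ u v, G.Adj u v → f u ≠ f v) := by
  classical
  refine ⟨?_, ?_⟩
  · intro V _ G k
    constructor
    · intro hcol L hL hdeg
      obtain ⟨f, hf, hfp⟩ := Pool.Agent.H29.FewLists.assignment_two_or_all k G.edgeSet G.lineGraph
        (Pool.Agent.H29.FewLists.lineGraph_clawFree G) hcol L hL hdeg
      exact ⟨f, hf, hfp⟩
    · intro h
      obtain ⟨f, hf, hfp⟩ := h (fun _ => Finset.range k) (fun _ => by simp) (by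
        intro c
        left
        refine le_trans (Set.ncard_le_ncard (t := {Finset.range k}) ?_ (Set.toFinite _)) ?_
        · rintro _ ⟨⟨e, rfl⟩, -⟩
          rfl
        · simp)
      exact ⟨SimpleGraph.Coloring.mk (fun e => (⟨f e, Finset.mem_range.1 (hf e)⟩ : Fin k))
        (fun {e e'} hee h => hfp e e' hee (congrArg Fin.val h))⟩
  · intro V _ G k r hG hcol hr ι _ A C hdisj hmeet hA hdeg L hL
    choose τ hτ using hL
    obtain ⟨f, hf, hfp⟩ := Pool.Agent.H29.FewLists.assignment_full k r V G hG hcol
      (fun v => A (τ v)) C hr hdisj (fun v j => hmeet (τ v) j) (fun v => hA (τ v)) (by
        intro c hc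
        rcases hdeg c (fun j hj => hc (Finset.mem_biUnion.2 ⟨j, Finset.mem_univ _, hj⟩)) with h | h
        · left
          refine le_trans ?_ h
          refine le_trans (Set.ncard_le_ncard (t := A '' {i | c ∈ A i}) ?_ (Set.toFinite _))
            (Set.ncard_image_le (Set.toFinite _))
          rintro _ ⟨⟨v, rfl⟩, h'⟩
          exact ⟨τ v, h', rfl⟩
        · right
          exact fun v => h (τ v))
    exact ⟨f, fun v => hτ v (hf v), hfp⟩

end Pool.Agent.Results.MP_2f9829_co.ColoursInTwoLists
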